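import Pool.Agent.N162.CV.Pl

/-!
# Project CV, part B1 (helper27): two projections
-/

set_option autoImplicit false

open MvPolynomial Finset

namespace Pool.Agent.N27.CV

open Pool.Agent.N162.CV

/-! ## Linear substitutions in the plane -/

section plane

variable {Ω : Type} [Field Ω]

/-- the value of a form at `(0, 1)` -/
theorem eval_01 {H : MvPolynomial (Fin 2) Ω} {a : ℕ} (hH : H.IsHomogeneous a) :
    eval (![0, 1] : Fin 2 → Ω) H = coeff (Finsupp.single 1 a) H := by
  classical
  rw [eval_eq', Finset.sum_eq_single (Finsupp.single 1 a)]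
  · rw [Fin.prod_univ_two]
    simp
  · intro d hd hne
    have h1 : d.degree = a := by
      by_contra h2
      exact (mem_support_iff.1 hd) (hH.coeff_eq_zero h2)
    rw [Fin.prod_univ_two]
    have h3 : d 0 ≠ 0 := by
      intro h4
      apply hne
      have h5 : d.degree = d 0 + d 1 := by
        rw [Finsupp.degree_eq_sum, Fin.sum_univ_two]
      ext s
      fin_cases s
      · simp [h4]
      · simp only [Fin.mk_one, Finsupp.single_eq_same]
        omega
    simp [h3]
  · intro h
    rw [notMem_support_iff.1 h, zero_mul]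

theorem eval_gen {σ τ : Type} (u : τ → Ω) (f : σ → MvPolynomial τ Ω) (G : MvPolynomial σ Ω) :
    eval u (aeval f G) = eval (fun s => eval u (f s)) G := by
  induction G using MvPolynomial.induction_on with
  | C a => simp
  | add p q hp hq => rw [map_add, map_add, map_add, hp, hq]
  | mul_X p s hp => rw [map_mul, map_mul, map_mul, hp, aeval_X, eval_X]

/-- the linear substitution -/
noncomputable def sub (α β : Fin 2 → Ω) (G : MvPolynomial (Fin 2) Ω) : MvPolynomial (Fin 2) Ω :=
  aeval (fun s => C (α s) * X 0 + C (β s) * X 1) G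

theorem eval_sub' (α β : Fin 2 → Ω) (G : MvPolynomial (Fin 2) Ω) (x y : Ω) :
    eval ![x, y] (sub α β G) = eval (fun s => α s * x + β s * y) G := by
  unfold sub
  rw [eval_gen]
  congr 2
  funext s
  simp

theorem sub_hom (α β : Fin 2 → Ω) {G : MvPolynomial (Fin 2) Ω} {k : ℕ} (hG : G.IsHomogeneous k) :
    (sub α β G).IsHomogeneous k := by
  have := hG.aeval (fun s => C (α s) * X 0 + C (β s) * X 1 : Fin 2 → MvPolynomial (Fin 2) Ω)
    (n := 1) (fun s => (isHomogeneous_C_mul_X _ _).add (isHomogeneous_C_mul_X _ _))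
  rwa [one_mul] at this

theorem sub_spec (α β : Fin 2 → Ω) {G : MvPolynomial (Fin 2) Ω}
    (h : eval β (homogeneousComponent G.totalDegree G) ≠ 0) :
    MonicY (sub α β G) ∧ (sub α β G).totalDegree = G.totalDegree := by
  set a := G.totalDegree with ha
  have hdec : sub α β G = ∑ i ∈ range (a + 1), sub α β (homogeneousComponent i G) := by
    conv_lhs => rw [← sum_homogeneousComponent G]
    unfold sub
    rw [map_sum]
  have hcoeff : coeff (Finsupp.single 1 a) (sub α β G)
      = eval β (homogeneousComponent a G) := by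
    rw [hdec, coeff_sum, Finset.sum_eq_single a]
    · rw [← eval_01 (sub_hom α β (homogeneousComponent_isHomogeneous a G)), eval_sub']
      congr 1
      simp
    · intro k _ hk
      refine (sub_hom α β (homogeneousComponent_isHomogeneous k G)).coeff_eq_zero ?_
      rw [Finsupp.degree_single]
      exact fun h => hk h.symm
    · intro h
      exact absurd (mem_range.2 (Nat.lt_succ_self a)) h
  have hle : (sub α β G).totalDegree ≤ a := by
    rw [hdec]
    refine totalDegree_finsetSum_le fun i hi => ?_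
    exact (sub_hom α β (homogeneousComponent_isHomogeneous i G)).totalDegree_le.trans
      (Nat.lt_succ_iff.1 (mem_range.1 hi))
  have hge : a ≤ (sub α β G).totalDegree := by
    have h1 : Finsupp.single 1 a ∈ (sub α β G).support := by
      rw [mem_support_iff, hcoeff]; exact h
    have h2 := le_totalDegree h1
    simpa using h2
  have heq : (sub α β G).totalDegree = a := le_antisymm hle hge
  refine ⟨?_, heq⟩
  unfold MonicY
  rw [heq, hcoeff]
  exact h

/-- the top form of a nonzero polynomial is not zero -/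
theorem top_ne {σ : Type} {G : MvPolynomial σ Ω} (h : G ≠ 0) :
    homogeneousComponent G.totalDegree G ≠ 0 := by
  classical
  obtain ⟨d, hd, hdt⟩ : ∃ d ∈ G.support, d.degree = G.totalDegree := by
    have hne : G.support.Nonempty := support_nonempty.2 h
    obtain ⟨d, hd, hdm⟩ := Finset.exists_max_image G.support (fun d => d.degree) hne
    refine ⟨d, hd, le_antisymm ?_ ?_⟩
    · have := le_totalDegree hd
      rw [Finsupp.degree_apply]
      exact this
    · unfold totalDegree
      refine Finset.sup_le fun e he => ?_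
      have := hdm e he
      rw [Finsupp.degree_apply, Finsupp.degree_apply] at this
      rw [Finsupp.degree_apply]
      exact this
  intro h0
  have h1 := coeff_homogeneousComponent G.totalDegree G d
  rw [h0, if_pos hdt, coeff_zero] at h1
  exact (mem_support_iff.1 hd) h1.symm

/-- a form of positive degree vanishes at `0` -/
theorem hom_zero {σ : Type} {H : MvPolynomial σ Ω} {a : ℕ} (hH : H.IsHomogeneous a) (ha : 1 ≤ a) :
    eval (0 : σ → Ω) H = 0 := by
  have h1 : eval (0 : σ → Ω) H = constantCoeff H := by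
    exact congrFun (congrArg DFunLike.coe (eval_zero (R := Ω) (σ := σ))) _
  rw [h1, constantCoeff_eq]
  refine hH.coeff_eq_zero ?_
  rw [map_zero]
  omega

end plane

/-! ## Test sets -/

section test

variable {Ω : Type} [Field Ω] [CharZero Ω]

/-- a polynomial of degree at most `L` which vanishes on a large grid is zero -/
theorem grid {P : MvPolynomial (Fin 3) Ω} {L : ℕ} (hP : P.totalDegree ≤ L)
    (h : ∀ o : Fin 3 → ℕ, (∀ s, o s ≤ L) → eval (fun s => (o s : Ω)) P = 0) : P = 0 := by
  classical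
  refine eq_zero_of_eval_zero_at_prod_finset P
    (fun _ => (range (L + 1)).image (fun n : ℕ => (n : Ω))) ?_ ?_
  · intro i
    rw [Finset.card_image_of_injective _ Nat.cast_injective, card_range]
    exact lt_of_le_of_lt ((degreeOf_le_totalDegree P i).trans hP) (Nat.lt_succ_self L)
  · intro x hx
    have h1 : ∀ s, ∃ n : ℕ, n ≤ L ∧ (n : Ω) = x s := by
      intro s
      obtain ⟨n, hn, hn'⟩ := Finset.mem_image.1 (hx s)
      exact ⟨n, Nat.lt_succ_iff.1 (mem_range.1 hn), hn'⟩
    choose o ho ho' using h1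
    have h2 : x = fun s => (o s : Ω) := by funext s; exact (ho' s).symm
    rw [h2]
    exact h o ho

/-- a nonzero polynomial has a natural point where it does not vanish -/
theorem exists_nat {P : MvPolynomial (Fin 3) Ω} (hP : P ≠ 0) :
    ∃ o : Fin 3 → ℕ, eval (fun s => (o s : Ω)) P ≠ 0 := by
  by_contra hcon
  push Not at hcon
  exact hP (grid le_rfl fun o _ => hcon o)

end test

/-! ## Projections along a direction -/

section proj

variable {Ω : Type} [Field Ω]

/-- the projection along `o` -/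
def pj (o v : Fin 3 → Ω) : Fin 2 → Ω := ![o 0 * v 1 - o 1 * v 0, o 0 * v 2 - o 2 * v 0]

/-- the linear form in `o` which shows that `w` is not parallel to `o` -/
noncomputable def Lw (w : Fin 3 → Ω) : MvPolynomial (Fin 3) Ω :=
  open Classical in
  if w 0 ≠ 0 ∨ w 1 ≠ 0 then X 0 * C (w 1) - X 1 * C (w 0) else X 0 * C (w 2) - X 2 * C (w 0)

theorem Lw_ne {w : Fin 3 → Ω} (hw : w ≠ 0) : Lw w ≠ 0 := by
  unfold Lw
  split_ifs with h
  · rcases h with h | h
    · intro h0
      have := congrArg (eval (![0, 1, 0] : Fin 3 → Ω)) h0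
      simp at this
      exact h this
    · intro h0
      have := congrArg (eval (![1, 0, 0] : Fin 3 → Ω)) h0
      simp at this
      exact h this
  · push Not at h
    intro h0
    have := congrArg (eval (![1, 0, 0] : Fin 3 → Ω)) h0
    simp at this
    apply hw
    funext s
    fin_cases s
    · exact h.1
    · exact h.2
    · exact this

theorem Lw_spec {w o : Fin 3 → Ω} (h : eval o (Lw w) ≠ 0) : pj o w ≠ 0 := by
  intro h0
  have h1 : o 0 * w 1 - o 1 * w 0 = 0 := congrFun h0 0
  have h2 : o 0 * w 2 - o 2 * w 0 = 0 := congrFun h0 1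
  apply h
  unfold Lw
  split_ifs
  · simpa using h1
  · simpa using h2

theorem pj_sub (o v w : Fin 3 → Ω) : pj o (v - w) = pj o v - pj o w := by
  funext s
  fin_cases s <;> simp [pj] <;> ring

/-- a relation in space gives a relation for the projected points -/
theorem rel_proj {ι : Type} {S : Finset ι} {q : ι → Fin 4 → Ω} {lam : ι → Ω} {m : ℕ}
    (hq : ∀ i ∈ S, q i 0 = 1)
    (h : ∀ P : MvPolynomial (Fin 4) Ω, P.IsHomogeneous m → ∑ i ∈ S, lam i * eval (q i) P = 0)
    (o : Fin 3 → Ω) : PRel m S (fun i => pj o (fun s => q i s.succ)) lam := by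
  classical
  intro P hP
  set l : Fin 2 → MvPolynomial (Fin 4) Ω :=
    ![C (o 0) * X 2 - C (o 1) * X 1, C (o 0) * X 3 - C (o 2) * X 1] with hl
  have hlh : ∀ s, (l s).IsHomogeneous 1 := by
    intro s
    fin_cases s
    · exact (isHomogeneous_C_mul_X _ _).sub (isHomogeneous_C_mul_X _ _)
    · exact (isHomogeneous_C_mul_X _ _).sub (isHomogeneous_C_mul_X _ _)
  set Q : MvPolynomial (Fin 4) Ω :=
    ∑ d ∈ P.support, C (coeff d P) * ((X 0) ^ (m - d.degree) * ∏ s, (l s) ^ (d s)) with hQ
  have hQh : Q.IsHomogeneous m := by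
    rw [hQ]
    refine IsHomogeneous.sum _ _ _ fun d hd => ?_
    have h1 : d.degree ≤ m := by
      have := le_totalDegree hd
      rw [Finsupp.degree_apply]
      exact this.trans hP
    have h2 : (∏ s, (l s) ^ (d s)).IsHomogeneous (∑ s, d s) :=
      IsHomogeneous.prod _ _ _ fun s _ => by
        have := (hlh s).pow (d s)
        rwa [one_mul] at this
    have h3 : ∑ s, d s = d.degree := by rw [Finsupp.degree_eq_sum]
    rw [h3] at h2
    have h4 := ((isHomogeneous_X_pow (R := Ω) (0 : Fin 4) (m - d.degree)).mul h2)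
    rw [Nat.sub_add_cancel h1] at h4
    exact h4.C_mul _
  have hev : ∀ i ∈ S, eval (q i) Q = eval (pj o (fun s => q i s.succ)) P := by
    intro i hi
    rw [hQ, map_sum, eval_eq']
    refine Finset.sum_congr rfl fun d _ => ?_
    rw [map_mul, map_mul, map_pow, eval_X, hq i hi, one_pow, one_mul, eval_C, map_prod]
    congr 1
    refine Finset.prod_congr rfl fun s _ => ?_
    rw [map_pow]
    congr 1
    fin_cases s <;> simp [hl, pj]
  rw [← h Q hQh]
  refine Finset.sum_congr rfl fun i hi => ?_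
  rw [hev i hi]

/-- the projection with polynomial argument -/
noncomputable def pjX (o : Fin 3 → Ω) : Fin 2 → MvPolynomial (Fin 3) Ω :=
  ![C (o 0) * X 1 - C (o 1) * X 0, C (o 0) * X 2 - C (o 2) * X 0]

/-- the top form, on space -/
noncomputable def gg (o : Fin 3 → Ω) (G : MvPolynomial (Fin 2) Ω) : MvPolynomial (Fin 3) Ω :=
  aeval (pjX o) (homogeneousComponent G.totalDegree G)

theorem gg_eval (o u : Fin 3 → Ω) (G : MvPolynomial (Fin 2) Ω) :
    eval u (gg o G) = eval (pj o u) (homogeneousComponent G.totalDegree G) := by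
  unfold gg
  rw [eval_gen]
  congr 2
  funext s
  fin_cases s <;> simp [pjX, pj]

theorem gg_deg (o : Fin 3 → Ω) (G : MvPolynomial (Fin 2) Ω) :
    (gg o G).totalDegree ≤ G.totalDegree := by
  have h1 := (homogeneousComponent_isHomogeneous G.totalDegree G).aeval (pjX o) (n := 1) (by
    intro s
    fin_cases s
    · exact (isHomogeneous_C_mul_X _ _).sub (isHomogeneous_C_mul_X _ _)
    · exact (isHomogeneous_C_mul_X _ _).sub (isHomogeneous_C_mul_X _ _))
  rw [one_mul] at h1
  exact h1.totalDegree_le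

theorem gg_ne [Infinite Ω] {o : Fin 3 → Ω} (ho : o 0 ≠ 0) {G : MvPolynomial (Fin 2) Ω}
    (hG : G ≠ 0) : gg o G ≠ 0 := by
  intro h0
  have h1 := top_ne hG
  apply h1
  refine MvPolynomial.funext fun y => ?_
  rw [map_zero]
  have h2 : pj o ![0, (o 0)⁻¹ * y 0, (o 0)⁻¹ * y 1] = y := by
    funext s
    fin_cases s <;> simp [pj, ho]
  rw [← h2, ← gg_eval, h0, map_zero]

end proj

/-! ## The matrix -/

/-- the matrix with the columns `(1, 0, 0, 0)`, `(0, e)`, `(0, a)`, `(0, b)` -/
def Mat (e a b : Fin 3 → ℚ) : Matrix (Fin 4) (Fin 4) ℚ :=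
  !![1, 0, 0, 0; 0, e 0, a 0, b 0; 0, e 1, a 1, b 1; 0, e 2, a 2, b 2]

theorem Mat_det (e a b : Fin 3 → ℚ) : (Mat e a b).det =
    e 0 * (a 1 * b 2 - b 1 * a 2) - a 0 * (e 1 * b 2 - b 1 * e 2) +
      b 0 * (e 1 * a 2 - a 1 * e 2) := by
  rw [Matrix.det_succ_row_zero]
  simp [Mat, Fin.sum_univ_succ, Matrix.det_fin_three, Fin.succAbove, Matrix.submatrix]
  ring

theorem exists_e {a b : Fin 3 → ℚ} (h : b 0 * a 1 - b 1 * a 0 ≠ 0 ∨ b 0 * a 2 - b 2 * a 0 ≠ 0) :
    ∃ e : Fin 3 → ℚ, (Mat e a b).det ≠ 0 := by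
  rcases h with h | h
  · refine ⟨![0, 0, 1], ?_⟩
    rw [Mat_det]
    intro h0
    apply h
    simp at h0
    linarith
  · refine ⟨![0, 1, 0], ?_⟩
    rw [Mat_det]
    intro h0
    apply h
    simp at h0
    linarith

theorem evF {Ω : Type} [Field Ω] [Algebra ℂ Ω] (F : MvPolynomial (Fin 4) ℂ) (u : Fin 3 → ℂ) :
    eval (fun s => algebraMap ℂ Ω (u s))
      (aeval (Fin.cons 0 X : Fin 4 → MvPolynomial (Fin 3) Ω) F) =
      algebraMap ℂ Ω (eval (Fin.cons 0 u : Fin 4 → ℂ) F) := by
  induction F using MvPolynomial.induction_on with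
  | C a => rw [aeval_C, eval_C, MvPolynomial.algebraMap_apply, eval_C]
  | add p q hp hq => rw [map_add, map_add, map_add, map_add, hp, hq]
  | mul_X p s hp =>
    rw [map_mul, map_mul, map_mul, map_mul, hp, aeval_X, eval_X]
    congr 1
    refine Fin.cases ?_ (fun s => ?_) s
    · simp
    · simp

/-- **CV/B1** -/
theorem b1_ (h : StA2) : StB1 := by
  intro Ω _ _ _ ι S q lam m N F hS hq0 hinj hlam hrel hN hm hcard ⟨c, hc0, hcF⟩
  classical
  have : CharZero Ω := charZero_of_injective_algebraMap (algebraMap ℂ Ω).injective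
  set v : ι → Fin 3 → Ω := fun i s => q i s.succ with hv
  have hvne : ∀ i ∈ S, ∀ j ∈ S, i ≠ j → v i - v j ≠ 0 := by
    intro i hi j hj hne h0
    apply hne
    apply hinj hi hj
    funext s
    refine Fin.cases ?_ (fun s => ?_) s
    · rw [hq0 i hi, hq0 j hj]
    · exact sub_eq_zero.1 (congrFun h0 s)
  -- the form
  set Fp : MvPolynomial (Fin 3) Ω :=
    aeval (Fin.cons 0 X : Fin 4 → MvPolynomial (Fin 3) Ω) F with hFp
  have hFp0 : Fp ≠ 0 := by
    intro h0
    have h1 := evF (Ω := Ω) F (fun s => c s.succ)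
    have h2 : (Fin.cons 0 (fun s => c s.succ) : Fin 4 → ℂ) = c := by
      funext s
      refine Fin.cases ?_ (fun s => ?_) s
      · rw [Fin.cons_zero, hc0]
      · rw [Fin.cons_succ]
    rw [← hFp, h0, map_zero, h2] at h1
    exact hcF ((map_eq_zero (algebraMap ℂ Ω)).1 h1.symm)
  set hh : MvPolynomial (Fin 3) Ω :=
    Fp * X 0 * ∏ i ∈ S, ∏ j ∈ S, (if i = j then 1 else Lw (v i - v j)) with hhh
  have hh0 : hh ≠ 0 := by
    refine mul_ne_zero (mul_ne_zero hFp0 (X_ne_zero 0)) ?_
    refine Finset.prod_ne_zero_iff.2 fun i hi => Finset.prod_ne_zero_iff.2 fun j hj => ?_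
    split_ifs with hij
    · exact one_ne_zero
    · exact Lw_ne (hvne i hi j hj hij)
  -- natural points
  set cΩ : (Fin 3 → ℕ) → Fin 3 → Ω := fun o s => (o s : Ω) with hcΩ
  have good1 : ∀ o : Fin 3 → ℕ, eval (cΩ o) hh ≠ 0 →
      eval (Fin.cons 0 (fun s => (o s : ℂ)) : Fin 4 → ℂ) F ≠ 0 := by
    intro o ho h0
    apply ho
    have h1 := evF (Ω := Ω) F (fun s => (o s : ℂ))
    rw [h0, map_zero] at h1
    have h2 : (fun s => algebraMap ℂ Ω ((o s : ℕ) : ℂ)) = cΩ o := by
      funext s
      simp [hcΩ]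
    rw [h2] at h1
    rw [hhh, map_mul, map_mul, ← hFp] at *
    rw [h1, zero_mul, zero_mul]
  have good2 : ∀ o : Fin 3 → ℕ, eval (cΩ o) hh ≠ 0 → cΩ o 0 ≠ 0 := by
    intro o ho h0
    apply ho
    rw [hhh, map_mul, map_mul, eval_X, h0, mul_zero, zero_mul]
  have good3 : ∀ o : Fin 3 → ℕ, eval (cΩ o) hh ≠ 0 → ∀ i ∈ S, ∀ j ∈ S, i ≠ j →
      pj (cΩ o) (v i) ≠ pj (cΩ o) (v j) := by
    intro o ho i hi j hj hij h0
    have h1 : eval (cΩ o) (Lw (v i - v j)) ≠ 0 := by
      intro h2
      apply ho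
      rw [hhh, map_mul, map_prod]
      have h3 : ∏ x ∈ S, eval (cΩ o) (∏ j ∈ S, (if x = j then 1 else Lw (v x - v j))) = 0 := by
        refine Finset.prod_eq_zero hi ?_
        rw [map_prod]
        refine Finset.prod_eq_zero hj ?_
        rw [if_neg hij]
        exact h2
      rw [h3, mul_zero]
    have h2 := Lw_spec h1
    rw [pj_sub, h0, sub_self] at h2
    exact h2 rfl
  -- the curves
  have hG : ∀ o : Fin 3 → ℕ, ∃ G : MvPolynomial (Fin 2) Ω, eval (cΩ o) hh ≠ 0 →
      G ≠ 0 ∧ G.totalDegree ≤ N ∧ 1 ≤ G.totalDegree ∧ ∀ i ∈ S, eval (pj (cΩ o) (v i)) G = 0 := by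
    intro o
    by_cases ho : eval (cΩ o) hh ≠ 0
    · obtain ⟨G, hG0, hGd, hGv⟩ := h Ω ι S (fun i => pj (cΩ o) (v i)) lam m N hN hm hcard
        (by
          intro i hi j hj hij
          by_contra hne
          exact good3 o ho i hi j hj hne hij)
        hlam (rel_proj hq0 hrel (cΩ o))
      refine ⟨G, fun _ => ⟨hG0, hGd, ?_, hGv⟩⟩
      by_contra hcon
      have h1 : G.totalDegree = 0 := by omega
      rw [totalDegree_eq_zero_iff_eq_C] at h1
      obtain ⟨i, hi⟩ := hS
      have h2 := hGv i hi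
      rw [h1, eval_C] at h2
      apply hG0
      rw [h1, h2, C_0]
    · exact ⟨0, fun h => absurd h ho⟩
  choose G hG using hG
  -- the test set
  set L := N + hh.totalDegree with hL
  set O := (Fintype.piFinset (fun _ : Fin 3 => range (L + 1))).filter
    (fun o => eval (cΩ o) hh ≠ 0) with hO
  have htest : ∀ g : MvPolynomial (Fin 3) Ω, g ≠ 0 → g.totalDegree ≤ N →
      ∃ o ∈ O, eval (cΩ o) g ≠ 0 := by
    intro g hg hgd
    by_contra hcon
    push Not at hcon
    have h1 : g * hh = 0 := by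
      refine grid (L := L) ((totalDegree_mul _ _).trans ?_) fun o ho => ?_
      · rw [hL]; omega
      · rw [map_mul]
        by_cases h2 : eval (cΩ o) hh = 0
        · exact mul_eq_zero_of_right _ h2
        · refine mul_eq_zero_of_left (hcon o ?_) _
          rw [hO, Finset.mem_filter, Fintype.mem_piFinset]
          exact ⟨fun s => Finset.mem_range.2 (Nat.lt_succ_of_le (ho s)), h2⟩
    exact mul_ne_zero hg hh0 h1
  have hOg : ∀ o ∈ O, eval (cΩ o) hh ≠ 0 := fun o ho => (Finset.mem_filter.1 ho).2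
  -- the second direction
  obtain ⟨o', ho'⟩ := exists_nat (P := hh * ∏ o ∈ O, gg (cΩ o) (G o)) (by
    refine mul_ne_zero hh0 (Finset.prod_ne_zero_iff.2 fun o ho => ?_)
    exact gg_ne (good2 o (hOg o ho)) (hG o (hOg o ho)).1)
  rw [map_mul, map_prod] at ho'
  have ho'1 : eval (cΩ o') hh ≠ 0 := left_ne_zero_of_mul ho'
  have ho'2 : ∀ o ∈ O, eval (cΩ o') (gg (cΩ o) (G o)) ≠ 0 :=
    Finset.prod_ne_zero_iff.1 (right_ne_zero_of_mul ho')
  obtain ⟨hG'0, hG'd, hG'1, hG'v⟩ := hG o' ho'1
  obtain ⟨o, hoO, ho2⟩ := htest (gg (cΩ o') (G o')) (gg_ne (good2 o' ho'1) hG'0)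
    ((gg_deg _ _).trans hG'd)
  have ho1 := hOg o hoO
  obtain ⟨hG0, hGd, hG1, hGv⟩ := hG o ho1
  have ho3 := ho'2 o hoO
  rw [gg_eval] at ho2 ho3
  -- independence
  have hpj : pj (cΩ o) (cΩ o') ≠ 0 := by
    intro h0
    rw [h0, hom_zero (homogeneousComponent_isHomogeneous _ _) hG1] at ho3
    exact ho3 rfl
  obtain ⟨e, he⟩ : ∃ e : Fin 3 → ℚ, (Mat e (fun s => (o' s : ℚ)) (fun s => (o s : ℚ))).det ≠ 0 := by
    apply exists_e
    by_contra hcon
    push Not at hcon
    apply hpj
    funext s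
    fin_cases s
    · have := congrArg (Rat.cast : ℚ → Ω) hcon.1
      push_cast at this
      simpa [pj, hcΩ] using this
    · have := congrArg (Rat.cast : ℚ → Ω) hcon.2
      push_cast at this
      simpa [pj, hcΩ] using this
  set M' := Mat e (fun s => (o' s : ℚ)) (fun s => (o s : ℚ)) with hM'
  have hu : IsUnit M'.det := isUnit_iff_ne_zero.2 he
  have hMM' : M'⁻¹ * M' = 1 := Matrix.nonsing_inv_mul _ hu
  have hM'M : M' * M'⁻¹ = 1 := Matrix.mul_nonsing_inv _ hu
  set M := M'⁻¹ with hM
  have hrow : ∀ j, M 0 j = if j = 0 then 1 else 0 := by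
    intro j
    have h1 := congrFun (congrFun hM'M 0) j
    rw [Matrix.mul_apply, Fin.sum_univ_four] at h1
    have e0 : M' 0 0 = 1 := rfl
    have e1 : M' 0 1 = 0 := rfl
    have e2 : M' 0 2 = 0 := rfl
    have e3 : M' 0 3 = 0 := rfl
    rw [e0, e1, e2, e3, one_mul, zero_mul, zero_mul, zero_mul, add_zero, add_zero, add_zero,
      Matrix.one_apply] at h1
    rw [h1]
    by_cases hj : j = 0
    · rw [if_pos hj, if_pos hj.symm]
    · rw [if_neg hj, if_neg (fun h => hj h.symm)]
  -- the coordinates of the points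
  have hpt : ∀ i ∈ S, ∀ s : Fin 3, v i s = (e s : Ω) * ∑ j, (M 1 j : Ω) * q i j +
      cΩ o' s * ∑ j, (M 2 j : Ω) * q i j + cΩ o s * ∑ j, (M 3 j : Ω) * q i j := by
    intro i hi s
    have h1 : ∀ s : Fin 4, ∑ k, (M' s k : Ω) * ∑ j, (M k j : Ω) * q i j = q i s := by
      intro s
      have h2 : ∀ j, ∑ k, (M' s k : Ω) * (M k j : Ω) = if s = j then 1 else 0 := by
        intro j
        have h3 := congrFun (congrFun hM'M s) j
        rw [Matrix.mul_apply, Matrix.one_apply] at h3
        have h4 := congrArg (Rat.cast : ℚ → Ω) h3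
        rw [Rat.cast_sum] at h4
        simp only [Rat.cast_mul] at h4
        rw [h4]
        split_ifs <;> simp
      calc ∑ k, (M' s k : Ω) * ∑ j, (M k j : Ω) * q i j
          = ∑ k, ∑ j, (M' s k : Ω) * (M k j : Ω) * q i j := by
            refine Finset.sum_congr rfl fun k _ => ?_
            rw [Finset.mul_sum]
            exact Finset.sum_congr rfl fun j _ => by ring
        _ = ∑ j, (∑ k, (M' s k : Ω) * (M k j : Ω)) * q i j := by
            rw [Finset.sum_comm]
            exact Finset.sum_congr rfl fun j _ => by rw [Finset.sum_mul]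
        _ = q i s := by
            simp only [h2]
            simp
    have h2 := h1 s.succ
    rw [Fin.sum_univ_four] at h2
    have e0 : M' s.succ 0 = 0 := by fin_cases s <;> rfl
    have e1 : M' s.succ 1 = e s := by fin_cases s <;> rfl
    have e2 : M' s.succ 2 = (o' s : ℚ) := by fin_cases s <;> rfl
    have e3 : M' s.succ 3 = (o s : ℚ) := by fin_cases s <;> rfl
    rw [e0, e1, e2, e3, Rat.cast_zero, zero_mul, zero_add, Rat.cast_natCast,
      Rat.cast_natCast] at h2
    exact h2.symm
  obtain ⟨hA1, hA2⟩ := sub_spec (pj (cΩ o) (fun s => (e s : Ω))) (pj (cΩ o) (cΩ o')) ho3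
  obtain ⟨hB1, hB2⟩ := sub_spec (pj (cΩ o') (fun s => (e s : Ω))) (pj (cΩ o') (cΩ o)) ho2
  refine ⟨M, M', sub (pj (cΩ o) (fun s => (e s : Ω))) (pj (cΩ o) (cΩ o')) (G o),
    sub (pj (cΩ o') (fun s => (e s : Ω))) (pj (cΩ o') (cΩ o)) (G o'), hMM', hM'M, hrow, hA1, hB1,
    by rw [hA2]; exact hG1, by rw [hA2]; exact hGd, by rw [hB2]; exact hG'1,
    by rw [hB2]; exact hG'd, ?_, ?_⟩
  · intro i hi
    have h0 := hpt i hi 0
    have h1 := hpt i hi 1
    have h2 := hpt i hi 2
    constructor
    · rw [eval_sub', ← hGv i hi]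
      congr 2
      funext s
      fin_cases s
      · simp only [pj, Fin.zero_eta, Matrix.cons_val_zero]
        rw [h0, h1]; ring
      · simp only [pj, Fin.mk_one, Matrix.cons_val_one, Matrix.cons_val_fin_one]
        rw [h0, h2]; ring
    · rw [eval_sub', ← hG'v i hi]
      congr 2
      funext s
      fin_cases s
      · simp only [pj, Fin.zero_eta, Matrix.cons_val_zero]
        rw [h0, h1]; ring
      · simp only [pj, Fin.mk_one, Matrix.cons_val_one, Matrix.cons_val_fin_one]
        rw [h0, h2]; ring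
  · have h1 := good1 o ho1
    have h2 : (fun j => ((M' j 3 : ℚ) : ℂ)) = (Fin.cons 0 (fun s => (o s : ℂ)) : Fin 4 → ℂ) := by
      funext j
      fin_cases j
      · have : M' 0 3 = 0 := rfl
        simp [this]
      · have : M' 1 3 = (o 0 : ℚ) := rfl
        simp [this]
      · have : M' 2 3 = (o 1 : ℚ) := rfl
        simp [this]
        rfl
      · have : M' 3 3 = (o 2 : ℚ) := rfl
        simp [this]
        rfl
    rw [h2]
    exact h1

end Pool.Agent.N27.CV
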